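import Pool.Agent.KS6_76.YY.Main

/-!
# MP_391ffd_co, Q1: Yao-Yao graphs are never spanners; simultaneously for all `k`, and densely

Definitions (library file `Pool.Graph.R_seed8.Helper759.YaoYaoDefs`): `YaoYao k P θ lt` is the
Yao-Yao graph of the finite planar point set `P` with `k` cones at each point `u`, oriented by
`θ u`, ties being broken by the rule `lt`; `IsSpanner t G`: any two points `u`, `v` are joined by a
walk of length at most `t |uv|`.
-/

namespace Pool.Agent.Results.MP_391ffd_co.DenseBadSets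

open Pool.Agent.Helper759.YaoYao

/-- Let `K` be an integer, `t` a real number, `Q` a finite set of points in the plane with arbitrary
orientations `θ₀` of the cones at its points, and `U` a nonempty open set, as small as one likes.
One can add finitely many points of `U` to `Q`, and choose orientations of the cones at the new
points, in such a way that for the resulting set `P`, and for every `k` with `2 ≤ k ≤ K`
simultaneously, the Yao-Yao graph `YY_k(P)` is not a `t`-spanner, whatever rule is used to break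
ties. In particular (`Q` empty, `K = k`) for no `k ≥ 2` is there a constant `t(k)` as in the
question. -/
theorem result :
    (∀ (K : ℕ) (t : ℝ) (Q : Finset ℂ) (θ₀ : ℂ → ℝ) (U : Set ℂ), IsOpen U → U.Nonempty →
      ∃ (P : Finset ℂ) (θ : ℂ → ℝ), Q ⊆ P ∧ (∀ x ∈ P, x ∉ Q → x ∈ U) ∧
        (∀ x ∈ Q, θ x = θ₀ x) ∧
        ∀ k : ℕ, 2 ≤ k → k ≤ K → ∀ lt : ℂ × ℂ → ℂ × ℂ → Prop,
          ¬ IsSpanner t (YaoYao k P θ lt)) ∧
    (∀ k : ℕ, 2 ≤ k → ¬ ∃ t : ℝ, ∀ (P : Finset ℂ) (θ : ℂ → ℝ),
      ∃ lt : ℂ × ℂ → ℂ × ℂ → Prop, IsSpanner t (YaoYao k P θ lt)) := by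
  refine ⟨fun K t Q θ₀ U hU hUn => Pool.Agent.KS6_76.YY.bad_dense K t Q θ₀ U hU hUn, ?_⟩
  rintro k hk ⟨t, ht⟩
  obtain ⟨P, θ, -, -, -, h⟩ := Pool.Agent.KS6_76.YY.bad_dense k t ∅ (fun _ => 0) Set.univ
    isOpen_univ Set.univ_nonempty
  obtain ⟨lt, hlt⟩ := ht P θ
  exact h k hk le_rfl lt hlt

end Pool.Agent.Results.MP_391ffd_co.DenseBadSets
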